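import Pool.Agent.MP_67f0e4_gt.B.Spec

/-! The heat equation of the time derivative of the potential, and the maximum principle on a
compact part of space-time. -/

open Set Metric Filter Topology
open scoped ContDiff

noncomputable section

namespace Pool.Agent.MP_67f0e4_gt.I89

open K B

variable {S : Set ℝ} {U : Set V}

theorem dt_dd (k : Kit S U) {f : Fn} (hf : Sm S U f) (i j : Fin 4) {t : ℝ} (ht : t ∈ S) {x : V}
    (hx : x ∈ U) : Dt S (Dx i (Dx j f)) t x = Dx i (Dx j (Dt S f)) t x := by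
  rw [k.Dt_Dx (k.sm_Dx hf j) i t ht x hx]
  exact k.Dx_congr (fun s hs y hy => k.Dt_Dx hf j s hs y hy) i t ht x hx

theorem dt_Gm (k : Kit S U) {f : Fn} (hf : Sm S U f) (α : Fin 4) {t : ℝ} (ht : t ∈ S) {x : V}
    (hx : x ∈ U) : Dt S (Gm f α) t x = Gm (Dt S f) α t x := by
  have sm : ∀ i j, Sm S U (Dx i (Dx j f)) := fun i j => k.sm_Dx (k.sm_Dx hf j) i
  have h := k.Gm_eq (Dt S f) t x
  fin_cases α
  · refine (k.Dt_congr (fun s _ y _ => (k.Gm_eq f s y).1) t ht x hx).trans ?_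
    rw [k.Dt_add (sm 0 0) (sm 1 1) t ht x hx, dt_dd k hf _ _ ht hx, dt_dd k hf _ _ ht hx]
    exact h.1.symm
  · refine (k.Dt_congr (fun s _ y _ => (k.Gm_eq f s y).2.1) t ht x hx).trans ?_
    rw [k.Dt_add (sm 2 2) (sm 3 3) t ht x hx, dt_dd k hf _ _ ht hx, dt_dd k hf _ _ ht hx]
    exact h.2.1.symm
  · refine (k.Dt_congr (fun s _ y _ => (k.Gm_eq f s y).2.2.1) t ht x hx).trans ?_
    rw [k.Dt_add (sm 0 2) (sm 1 3) t ht x hx, dt_dd k hf _ _ ht hx, dt_dd k hf _ _ ht hx]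
    exact h.2.2.1.symm
  · refine (k.Dt_congr (fun s _ y _ => (k.Gm_eq f s y).2.2.2) t ht x hx).trans ?_
    rw [k.Dt_sub (sm 0 3) (sm 1 2) t ht x hx, dt_dd k hf _ _ ht hx, dt_dd k hf _ _ ht hx]
    exact h.2.2.2.symm

/-- The time derivative of the potential is the logarithm of the volume ratio. -/
theorem dt_eq (k : Kit S U) {φ : Fn} {w0 : V → ℝ} (H : PFlow S U φ w0) {t : ℝ} (ht : t ∈ S)
    {x : V} (hx : x ∈ U) : Dt S φ t x = Real.log (hdet (lv (φ t) x)) - w0 x :=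
  k.Dt_eq t ht x (H.eq t ht x hx)

/-- The time derivative of the potential solves the linearised equation. -/
theorem dt_heat (k : Kit S U) {φ : Fn} {w0 : V → ℝ} (H : PFlow S U φ w0) {t : ℝ} (ht : t ∈ S)
    {x : V} (hx : x ∈ U) (hd : hdet (lv (φ t) x) ≠ 0) :
    HasDerivWithinAt (fun s => Dt S φ s x) (hmix (bb φ t x) (lv (Dt S φ t) x)) S t := by
  have g : ∀ α, HasDerivWithinAt (fun s => lv (φ s) x α) (lv (Dt S φ t) x α) S t := fun α => by
    have h1 := k.has_Dt (k.sm_Gm H.sm α) t ht x hx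
    rw [dt_Gm k H.sm α ht hx] at h1
    exact h1
  have h2 : HasDerivWithinAt (fun s => hdet (lv (φ s) x))
      (hmix (lv (φ t) x) (lv (Dt S φ t) x)) S t :=
    ((((g 0).mul (g 1)).sub ((g 2).pow 2)).sub ((g 3).pow 2)).congr_deriv (by
      simp only [hmix]; ring)
  refine (((h2.log hd).sub_const (w0 x)).congr_deriv ?_).congr
    (fun s hs => dt_eq k H hs hx) (dt_eq k H ht hx)
  simp only [bb, hmix, Pi.smul_apply, smul_eq_mul]
  field_simp

/-- Smooth functions on the surface are continuous. -/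
theorem xsm_cont {X : Set C3} (hX : Surf X) (F : Fam X) {Z : ℝ → C3 → ℝ} (h : XSm X S Z) :
    ContinuousOn (fun q : ℝ × C3 => Z q.1 q.2) (S ×ˢ X) := by
  rintro ⟨t, p⟩ ⟨ht, hp⟩
  obtain ⟨i, rfl⟩ := F.sur p hp
  have h0 : (0 : V) ∈ ball (0 : V) 2 := mem_ball_self two_pos
  obtain ⟨R, hR, h1, h2⟩ := hX.2 _ _ (F.par i) 0 h0
  have hR0 : R (F.Φ i 0) = 0 := h1.self_of_nhds
  have hc := (h _ _ (F.par i)).continuousOn (t, 0) ⟨ht, h0⟩
  have h3 : ContinuousWithinAt (fun q : ℝ × C3 => (q.1, R q.2)) (S ×ˢ X) (t, F.Φ i 0) :=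
    (continuousAt_fst.prodMk (hR.continuousAt.comp_of_eq continuousAt_snd rfl)).continuousWithinAt
  have h4 : Tendsto (fun q : ℝ × C3 => q.2) (𝓝[S ×ˢ X] (t, F.Φ i 0)) (𝓝[X] (F.Φ i 0)) :=
    (continuous_snd.continuousWithinAt (s := S ×ˢ X) (x := (t, F.Φ i 0))).tendsto_nhdsWithin
      fun _ hq => hq.2
  have h5 : Tendsto (fun q : ℝ × C3 => (q.1, R q.2)) (𝓝[S ×ˢ X] (t, F.Φ i 0))
      (𝓝[S ×ˢ ball (0 : V) 2] (t, 0)) := by
    refine tendsto_nhdsWithin_iff.2 ⟨?_, ?_⟩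
    · have h6 := h3.tendsto
      rwa [hR0] at h6
    · have h7 : ∀ᶠ q in 𝓝 (F.Φ i 0), R q ∈ ball (0 : V) 2 :=
        hR.continuousAt.eventually_mem (by rw [hR0]; exact isOpen_ball.mem_nhds h0)
      filter_upwards [self_mem_nhdsWithin, h4.eventually (h7.filter_mono nhdsWithin_le_nhds)]
        with q hq h8 using ⟨hq.1, h8⟩
  refine (hc.tendsto.comp h5).congr' ?_
  filter_upwards [h4.eventually h2] with q hq
  exact congrArg (Z q.1) hq

/-- The maximum principle on a compact part of space-time. -/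
theorem mpc (hM : SMAX) {X : Set C3} {t0 t1 : ℝ} {Z : ℝ → C3 → ℝ} {Ω : Set (ℝ × C3)}
    (hΩ : IsCompact Ω) (hc : ContinuousOn (fun q : ℝ × C3 => Z q.1 q.2) Ω)
    (h : ∀ t p, (t, p) ∈ Ω → 0 < Z t p → t ∈ Ioc t0 t1 ∧ Ω ∈ 𝓝[Icc t0 t1 ×ˢ X] (t, p) ∧
      ∃ (N : V → C3) (W : Set V) (x : V) (b : Hm) (d : ℝ), Par X N W ∧ x ∈ W ∧ N x = p ∧
        ContDiffAt ℝ 2 (Z t ∘ N) x ∧ NN b ∧ HasDerivWithinAt (fun s => Z s p) d (Icc t0 t1) t ∧
        d < hmix b (lv (Z t ∘ N) x)) : ∀ t p, (t, p) ∈ Ω → Z t p ≤ 0 := by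
  intro t' p' hq
  obtain ⟨⟨t, p⟩, hp, hm⟩ := hΩ.exists_isMaxOn ⟨_, hq⟩ hc
  by_contra hn
  obtain ⟨ht, hn', N, W, x, b, d, hN, hx, rfl, h2, hb, hd, hlt⟩ :=
    h t p hp ((not_le.1 hn).trans_le (hm hq))
  have hW := hN.op.mem_nhds hx
  have h3 : IsLocalMax (Z t ∘ N) x := by
    have h4 : Tendsto (fun y => (t, N y)) (𝓝 x) (𝓝[Icc t0 t1 ×ˢ X] (t, N x)) := by
      refine tendsto_nhdsWithin_iff.2 ⟨continuousAt_const.prodMk
        (hN.hol.continuousOn.continuousAt hW), ?_⟩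
      filter_upwards [hW] with y hy using ⟨Ioc_subset_Icc_self ht, hN.mem hy⟩
    filter_upwards [h4.eventually hn'] with y hy using hm hy
  have h5 := (hM _ x b h2 h3 (Or.inl hb)).1
  have h6 : IsLocalMaxOn (fun s => Z s (N x)) (Icc t0 t1) t := by
    have h4 : Tendsto (fun s => (s, N x)) (𝓝[Icc t0 t1] t) (𝓝[Icc t0 t1 ×ˢ X] (t, N x)) := by
      refine tendsto_nhdsWithin_iff.2 ⟨(continuousAt_id.prodMk
        continuousAt_const).continuousWithinAt, ?_⟩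
      filter_upwards [self_mem_nhdsWithin] with s hs using ⟨hs, hN.mem hx⟩
    filter_upwards [h4.eventually hn'] with y hy using hm hy
  have h7 : t0 - t ∈ posTangentConeAt (Icc t0 t1) t :=
    sub_mem_posTangentConeAt_of_segment_subset
      ((convex_Icc t0 t1).segment_subset (Ioc_subset_Icc_self ht)
        (left_mem_Icc.2 (ht.1.le.trans ht.2)))
  have h8 := h6.hasFDerivWithinAt_nonpos hd.hasFDerivWithinAt h7
  simp only [ContinuousLinearMap.toSpanSingleton_apply, smul_eq_mul] at h8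
  nlinarith [ht.1]

end Pool.Agent.MP_67f0e4_gt.I89
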