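import Pool.Agent.MP_67f0e4_gt.K.Spec
import Pool.Agent.MP_67f0e4_gt.K.Chart

/-! Small facts on closeness of metrics, runs and the scale of the bubble. -/

open Set Metric Filter Topology
open scoped ContDiff

noncomputable section

namespace Pool.Agent.MP_67f0e4_gt.I89

open K

theorem cl_nn {d : ℝ} {g h : Hm} (H : Cl d g h) (hd : 0 < d) : NN h := fun v =>
  nonneg_of_mul_nonneg_right ((abs_nonneg _).trans (H v)) hd

theorem cl_two {e e' : ℝ} {g h k : Hm} (H : Cl e g k) (H' : Cl e' h k) (he : 0 < e)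
    (h0 : 0 ≤ e') (h1 : e' ≤ 1 / 2) : Cl (2 * (e + e')) g h := fun v => by
  have n := cl_nn H he v
  have a := H v
  have b := H' v
  have c := H'.ge v
  have d := abs_sub_le (qf g v) (qf k v) (qf h v)
  rw [abs_sub_comm (qf k v)] at d
  have e1 : qf k v ≤ 2 * qf h v := by nlinarith
  nlinarith [mul_le_mul_of_nonneg_left e1 (add_nonneg he.le h0)]

theorem log_cl {e : ℝ} {g h : Hm} (H : Cl e g h) (hh : Pos h) (h0 : 0 ≤ e) (h1 : e ≤ 1 / 2) :
    |Real.log (hdet g) - Real.log (hdet h)| ≤ 4 * e := by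
  have hg := H.isPos hh (by linarith)
  have a := H.det_le hg.nn
  have b := H.det_ge hh.nn (by linarith)
  have p1 : 0 < 1 - e := by linarith
  have p2 : 0 < 1 + e := by linarith
  have a' := Real.log_le_log hg.det a
  have b' := Real.log_le_log (mul_pos (pow_pos p1 2) hh.det) b
  rw [Real.log_mul (pow_pos p2 2).ne' hh.det.ne', Real.log_pow] at a'
  rw [Real.log_mul (pow_pos p1 2).ne' hh.det.ne', Real.log_pow] at b'
  have c := Real.log_le_sub_one_of_pos p2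
  have d := Real.one_sub_inv_le_log_of_pos p1
  have f : (1 - e)⁻¹ ≤ 1 + 2 * e := by
    rw [inv_le_iff_one_le_mul₀ p1]
    nlinarith
  push_cast at a' b'
  exact abs_le.2 ⟨by linarith, by linarith⟩

variable {X : Set C3} {ψ f g h : C3 → ℝ} {p : C3} {F : Fam X} {u : ℝ → ℝ → ℝ} {b τ : ℝ}
  {φ : ℝ → C3 → ℝ}

theorem xcl_mono {d d' : ℝ} (H : XCl X d f g p) (h0 : 0 < d) (hd : d ≤ d') : XCl X d' f g p :=
  fun N U P x hx e => (H N U P x hx e).mono (cl_nn (H N U P x hx e) h0) hd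

theorem xcl_trans {d d' : ℝ} (H : XCl X d f g p) (H' : XCl X d' g h p) (h0 : 0 ≤ d) :
    XCl X (d + d' + d * d') f h p :=
  fun N U P x hx e => (H N U P x hx e).trans (H' N U P x hx e) h0

theorem xcl_two {d d' : ℝ} (H : XCl X d f h p) (H' : XCl X d' g h p) (he : 0 < d)
    (h0 : 0 ≤ d') (h1 : d' ≤ 1 / 2) : XCl X (2 * (d + d')) f g p :=
  fun N U P x hx e => cl_two (H N U P x hx e) (H' N U P x hx e) he h0 h1

theorem lv_cmul (c : ℝ) (N : V → C3) (x : V) :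
    lv ((fun q => c * ψ q) ∘ N) x = c • lv (ψ ∘ N) x := lv_const_mul c (ψ ∘ N) x

theorem yb_of_xcl {c e : ℝ} (hψ : RFlat X ψ) (hc : 0 < c) (H : XCl X e f (fun q => c * ψ q) p)
    (h0 : 0 ≤ e) (h1 : e ≤ 1 / 2) : YB X ψ (4 * e) f c p := fun N U P x hx hp => by
  have a := H N U P x hx hp
  have n := (hψ.2 N U P x hx).1
  rw [lv_cmul] at a
  have b := log_cl a (n.smul hc) h0 h1
  rw [hdet_smul, Real.log_mul (pow_pos hc 2).ne' n.det.ne', Real.log_pow] at b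
  push_cast at b
  rwa [show ∀ A B C : ℝ, A - B - 2 * C = A - (2 * C + B) from fun A B C => by ring]

theorem yb_mono {c e e' : ℝ} (H : YB X ψ e f c p) (he : e ≤ e') : YB X ψ e' f c p :=
  fun N U P x hx hp => (H N U P x hx hp).trans he

theorem run_mono (R : Run X ψ F u b τ φ) {t : ℝ} (ht : t ∈ Ioc 0 τ) : Run X ψ F u b t φ := by
  have hs : Icc 0 t ⊆ Icc 0 τ := Icc_subset_Icc_right ht.2
  obtain ⟨h1, ⟨Λ, h2⟩, h3⟩ := R.gf
  exact ⟨R.b0, ⟨ht.1, ht.2.trans_lt R.τ0.2⟩, ⟨h1.mono hs, ⟨Λ, fun s h => h2 s (hs h)⟩,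
    fun k => (h3 k).imp fun _ hM s h => hM s (hs h)⟩, R.init⟩

theorem bs_time {d t : ℝ} (H : BS X ψ u b d τ φ) (ht : t ≤ τ) : BS X ψ u b d t φ :=
  fun s hs => H s (Icc_subset_Icc_right ht hs)

theorem bs_mono {d d' : ℝ} (H : BS X ψ u b d τ φ) (h0 : 0 < d) (hd : d ≤ d') :
    BS X ψ u b d' τ φ := fun s hs p hp => xcl_mono (H s hs p hp) h0 hd

theorem xcl_init (R : Run X ψ F u b τ φ) {d : ℝ} (hd : 0 ≤ d) (p : C3) :
    XCl X d (φ 0) (FF ψ u b 0) p := fun N U P x hx _ v => by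
  have n := ((R.gf.1 N U P).pos 0 ⟨le_rfl, R.τ0.1.le⟩ x hx).nn v
  rw [← P.lv_congr hx R.init, sub_self, abs_zero]
  exact mul_nonneg hd n

theorem exp_inv_le {a : ℝ} (ha : 0 < a) (k : ℕ) : Real.exp (-1 / a) ≤ k.factorial * a ^ k := by
  have h := Real.pow_div_factorial_le_exp (1 / a) (by positivity) k
  have f : (0 : ℝ) < k.factorial := by exact_mod_cast k.factorial_pos
  rw [neg_div, Real.exp_neg, inv_le_comm₀ (Real.exp_pos _) (by positivity)]
  refine le_of_eq_of_le ?_ h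
  field_simp
  simp [ha.ne']

variable {C : ℝ} {θf : ℝ → ℝ} {Kf : ℝ → ℝ → ℝ} {t : ℝ}

theorem ct_pos (E : Est C θf Kf τ (UJ u)) (b : ℝ) (ht : t ∈ Icc 0 τ) : 0 < ct u b t :=
  mul_pos (E.cpos t ht).1 (Real.exp_pos _)

theorem ct_le (E : Est C θf Kf τ (UJ u)) (b : ℝ) (ht : t ∈ Icc 0 τ) (ha : 0 < 1 - 2 * t) :
    ct u b t ≤ 6 * (1 - 2 * t) ^ 3 * Real.exp (-b) := by
  have h := (E.cpos t ht).2.trans (exp_inv_le ha 3)
  norm_num [Nat.factorial] at h
  exact mul_le_mul_of_nonneg_right h (Real.exp_pos _).le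

theorem ct_exp {r : ℝ} (hr : 0 < r) :
    cc (UJ u) t * Real.exp (Real.log r - b) = ct u b t * r := by
  rw [sub_eq_add_neg, Real.exp_add, Real.exp_log hr, ct]
  ring

theorem ct_cont (E : Est C θf Kf τ (UJ u)) (hC : 0 ≤ C) (hτ : τ < 1 / 2) (b : ℝ) :
    ContinuousOn (ct u b) (Icc 0 τ) := by
  have ha : 0 < 1 - 2 * τ := by linarith
  have key : ∀ s ∈ Icc 0 τ, ∀ s' ∈ Icc 0 τ, s' ≤ s →
      |Real.log (cc (UJ u) s) - Real.log (cc (UJ u) s')| ≤ C / (1 - 2 * τ) ^ 2 * (s - s') := by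
    intro s hs s' hs' h
    refine (E.clip s hs s' hs' h).trans ?_
    rw [div_mul_eq_mul_div]
    exact div_le_div_of_nonneg_left (mul_nonneg hC (sub_nonneg.2 h)) (pow_pos ha 2)
      (pow_le_pow_left₀ ha.le (by linarith [hs.2]) 2)
  have h1 : LipschitzOnWith (Real.toNNReal (C / (1 - 2 * τ) ^ 2))
      (fun s => Real.log (cc (UJ u) s)) (Icc 0 τ) := by
    refine LipschitzOnWith.of_dist_le' fun s hs s' hs' => ?_
    rw [Real.dist_eq, Real.dist_eq]
    rcases le_total s' s with h | h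
    · rw [abs_of_nonneg (sub_nonneg.2 h)]
      exact key s hs s' hs' h
    · rw [abs_sub_comm, abs_sub_comm s, abs_of_nonneg (sub_nonneg.2 h)]
      exact key s' hs' s hs h
  have h2 : ContinuousOn (cc (UJ u)) (Icc 0 τ) :=
    h1.continuousOn.rexp.congr fun s hs => (Real.exp_log (E.cpos s hs).1).symm
  exact h2.mul continuousOn_const

end Pool.Agent.MP_67f0e4_gt.I89
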