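import Pool.Agent.MP_67f0e4_gt.I89.Kit

/-! One step of the bootstrap: outer estimate, volume form and inner estimate together. -/

open Set Metric Filter Topology
open scoped ContDiff

noncomputable section

namespace Pool.Agent.MP_67f0e4_gt.I89

open K

theorem ev_le {x : ℝ} (hx : 0 < x) : ∀ᶠ η in 𝓝[>] (0 : ℝ), η ≤ x :=
  mem_of_superset (Ioc_mem_nhdsGT hx) fun _ h => h.2

theorem ev_mul_le (K : ℝ) {x : ℝ} (hx : 0 < x) : ∀ᶠ η in 𝓝[>] (0 : ℝ), K * η ≤ x := by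
  have h : Tendsto (fun η : ℝ => K * η) (𝓝 0) (𝓝 (K * 0)) :=
    (continuous_const.mul continuous_id).tendsto 0
  rw [mul_zero] at h
  exact ((h.eventually_lt_const hx).mono fun _ h => h.le).filter_mono nhdsWithin_le_nhds

theorem ev_pos : ∀ᶠ η in 𝓝[>] (0 : ℝ), 0 < η := self_mem_nhdsWithin

theorem ev_end (K : ℝ) {x : ℝ} (hx : 0 < x) :
    ∀ᶠ t in 𝓝[<] (1 / 2 : ℝ), K * (1 - 2 * t) ≤ x := by
  have h : Tendsto (fun t : ℝ => K * (1 - 2 * t)) (𝓝 (1 / 2)) (𝓝 (K * (1 - 2 * (1 / 2)))) :=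
    (by fun_prop : Continuous fun t : ℝ => K * (1 - 2 * t)).tendsto _
  rw [show K * (1 - 2 * (1 / 2)) = 0 by ring] at h
  exact ((h.eventually_lt_const hx).mono fun _ h => h.le).filter_mono nhdsWithin_le_nhds

variable {X : Set C3} {ψ : C3 → ℝ} {F : Fam X} {C : ℝ} {θf : ℝ → ℝ} {Kf : ℝ → ℝ → ℝ}
  {Cj : ℕ → ℝ} {u : ℝ → ℝ → ℝ}

theorem step (hF : FCL) (hc : Ctx X ψ F C θf Kf Cj u) (out : pOUT X ψ F u) (i1 : pI1 X ψ F u)
    (inn : pINNER X ψ F u) (hs : HasSym X ψ) : ∃ d D : ℝ, 0 < d ∧ d ≤ 1 / 4 ∧ 1 ≤ D ∧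
    ∀ ε > 0, ∃ η > 0, ∀ b τ φ, Run X ψ F u b τ φ → BS X ψ u b d τ φ → ∀ th t0 A : ℝ, 0 < th →
      th ≤ η → 0 ≤ A → t0 ∈ Ico 0 τ →
      (∀ t ∈ Icc t0 τ, ∀ p ∈ X, |φ t p - FF ψ u b t p| ≤ η * (th * (1 - 2 * t) ^ 2)) →
      ct u b τ ≤ η * (th * (1 - 2 * τ) ^ 2) →
      (∀ p ∈ X, ct u b t0 * ψ p ≤ th * (1 - 2 * t0) ^ 2 → YB X ψ A (φ t0) (ct u b t0) p) →
      A * Real.exp (-((1 / (1 - 2 * τ) - 1 / (1 - 2 * t0)) / (D * th))) ≤ η →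
      (∀ p ∈ X, ct u b τ * ψ p ≤ th * (1 - 2 * τ) ^ 2 →
        XCl X ε (φ τ) (fun q => ct u b τ * ψ q) p) ∧
      ∀ p ∈ X, th * (1 - 2 * τ) ^ 2 / 2 ≤ ct u b τ * ψ p → XCl X ε (φ τ) (FF ψ u b τ) p := by
  obtain ⟨C2, hC2, fcl⟩ := hF C θf Kf hc.prof.cst
  have hC := hc.prof.cst.1
  obtain ⟨d1, hd1, ho⟩ := out
  obtain ⟨D, hD, h1⟩ := i1
  obtain ⟨d2, hd2, hi⟩ := inn hs
  obtain ⟨d, ⟨⟨a1, a2⟩, a3⟩, hd⟩ :=
    ((((ev_le hd1).and (ev_le hd2)).and (ev_le (by norm_num : (0 : ℝ) < 1 / 4))).and ev_pos).exists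
  refine ⟨d, D, hd, a3, hD, fun ε hε => ?_⟩
  obtain ⟨ηi, hηi, hi⟩ := hi ε hε
  obtain ⟨e, ⟨⟨⟨b1, b2⟩, b3⟩, b4⟩, he⟩ := (((((ev_le hε).and (ev_le hηi)).and
    (ev_le (by norm_num : (0 : ℝ) < 1 / 8))).and (ev_mul_le (16 * D) hηi)).and ev_pos).exists
  obtain ⟨ηo, hηo, ho⟩ := ho e he
  obtain ⟨η, ⟨⟨⟨⟨⟨c1, c2⟩, c3⟩, c4⟩, c5⟩, c6⟩, hη⟩ := (((((((ev_le hηi).and
    (ev_mul_le 4 hηo)).and (ev_mul_le (4 * C2) one_pos)).and (ev_mul_le D one_pos)).and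
    (ev_mul_le (4 * C) one_pos)).and (ev_mul_le (2 * D * (2 + 4 * C2)) hηi)).and ev_pos).exists
  refine ⟨η, hη, fun b τ φ R hB th t0 A hth hthη hA ht0 hcmp hct hini hAη => ?_⟩
  have RO := hc.prof.on τ R.τ0
  have E := RO.est
  have hsub : Icc t0 τ ⊆ Icc 0 τ := Icc_subset_Icc_left ht0.1
  have hτ' : τ ∈ Icc t0 τ := right_mem_Icc.2 ht0.2.le
  have k2 : C2 * th ≤ 1 / 4 := by nlinarith
  have oa : ∀ t ∈ Icc t0 τ, ∀ p ∈ X, th * (1 - 2 * t) ^ 2 / 2 ≤ ct u b t * ψ p →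
      XCl X e (φ t) (FF ψ u b t) p := by
    intro t ht p hp h
    rcases (hsub ht).1.eq_or_lt with rfl | h0
    · exact xcl_init R he.le p
    refine ho b t φ (run_mono R ⟨h0, ht.2⟩) (bs_mono (bs_time hB ht.2) hd a1) p hp fun q hq => ?_
    have h2 := E.out (Real.log (ψ p) - b) t (hsub ht) (th / 2) (by linarith) (by nlinarith) (by
      rw [ct_exp (by linarith [hc.one p hp])]
      linarith)
    have h3 : 0 ≤ th * (1 - 2 * t) ^ 2 := by positivity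
    refine (hcmp t ht q hq).trans ?_
    nlinarith
  have h3 : 0 ≤ th * (1 - 2 * τ) ^ 2 := by positivity
  refine ⟨hi b τ φ R (bs_mono hB hd a2) th hth (hthη.trans c1)
    (hct.trans (mul_le_mul_of_nonneg_right c1 h3)) (fun p hp h => ?_)
    (fun p hp => (hcmp τ hτ' p hp).trans (mul_le_mul_of_nonneg_right c1 h3))
    (fun p hp h _ => xcl_mono (oa τ hτ' p hp h) he b2),
    fun p hp h => xcl_mono (oa τ hτ' p hp h) he b1⟩
  have k3 : 0 < C2 * th := by positivity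
  refine yb_mono (h1 b τ φ R (bs_mono hB hd a3) th (4 * (2 * e + C2 * th)) A t0 hth (by nlinarith)
    (by positivity) hA ht0 (fun t ht q hq hqe => ?_) hini p hp h) ?_
  · have h4 : 0 ≤ th * (1 - 2 * t) ^ 2 := by positivity
    have f1 := (fcl X ψ τ u b hc.geo.pot RO t (hsub ht) th hth (by linarith)).1 q hq
      (by linarith [hc.one q hq]) hqe.le
    refine yb_of_xcl hc.geo.pot.rf (ct_pos E b (hsub ht))
      (xcl_mono (xcl_trans (oa t ht q hq (by linarith)) f1 he.le) (by positivity) ?_)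
      (by positivity) (by linarith)
    nlinarith
  · have k4 : C2 * th ≤ C2 * η := mul_le_mul_of_nonneg_left hthη (by linarith)
    have k5 : th + 4 * (2 * e + C2 * th) +
        A * Real.exp (-((1 / (1 - 2 * τ) - 1 / (1 - 2 * t0)) / (D * th))) ≤
        8 * e + (2 + 4 * C2) * η := by linarith
    refine (mul_le_mul_of_nonneg_left k5 (by linarith)).trans ?_
    linarith

end Pool.Agent.MP_67f0e4_gt.I89
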